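import Pool.Agent.Y890.UC.LogInt

/-!
# Polynomial form of the theorem for logarithms of integers
-/

set_option autoImplicit false
set_option linter.unusedSectionVars false

open Set Filter Topology Finset

namespace Pool.Agent.Y890.UC

open Pool.Agent.TH818.AR Pool.Agent.TH818.AP Pool.Agent.Y120

/-- exponents -/
noncomputable def sO {τ : Type} [Finite τ] {d : ℕ} (e : τ → Fin (d + 1)) : τ →₀ ℕ :=
  Finsupp.equivFunOnFinite.symm fun i => (e i : ℕ)

theorem sO_inj {τ : Type} [Finite τ] {d : ℕ} : Function.Injective (sO (τ := τ) (d := d)) := by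
  intro e e' h
  funext i
  have := DFunLike.congr_fun h i
  exact Fin.ext (by simpa [sO] using this)

theorem exists_sO {τ : Type} [Finite τ] {R : Type} [CommSemiring R] {d : ℕ} (P : MvPolynomial τ R)
    (hP : ∀ i, P.degreeOf i ≤ d) (u : τ →₀ ℕ) (hu : u ∈ P.support) : ∃ e : τ → Fin (d + 1), sO e = u := by
  have hle : ∀ x, u x < d + 1 := fun x =>
    Nat.lt_succ_of_le ((MvPolynomial.monomial_le_degreeOf x hu).trans (hP x))
  refine ⟨fun i => ⟨u i, hle i⟩, ?_⟩
  ext i
  simp [sO]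

theorem eval₂_eq_sum {τ : Type} [Fintype τ] [DecidableEq τ] {R : Type} [CommSemiring R] {d : ℕ} (f : R →+* ℂ) (y : τ → ℂ)
    (P : MvPolynomial τ R) (hP : ∀ i, P.degreeOf i ≤ d) :
    MvPolynomial.eval₂ f y P = ∑ e : τ → Fin (d + 1), f (P.coeff (sO e)) * ∏ i, y i ^ (e i : ℕ) := by
  classical
  have h1 : ∀ e : τ → Fin (d + 1), ∏ i, y i ^ (e i : ℕ) = ∏ i, y i ^ (sO e i) := fun e => by simp [sO]
  simp only [h1]
  rw [MvPolynomial.eval₂_eq']
  rw [← Finset.sum_image (f := fun u : τ →₀ ℕ => f (P.coeff u) * ∏ i, y i ^ (u i)) (fun a _ b _ hab => sO_inj hab)]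
  refine Finset.sum_subset ?_ ?_
  · intro u hu
    obtain ⟨e, he⟩ := exists_sO P hP u hu
    exact Finset.mem_image.2 ⟨e, Finset.mem_univ _, he⟩
  · intro u _ hu
    rw [MvPolynomial.notMem_support_iff.1 hu]
    simp

/-- The tuples `x` of integers in `[1, N]` for which some polynomial `P`, of degree at most `d` in each variable, whose
coefficients are polynomials in the numbers `ξ` of degree at most `d` in each variable with integer coefficients of
absolute value at most `N ^ A`, takes at the logarithms a value of absolute value at most `N ^ (-B)` times the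
absolute value of one of its non-zero coefficients. -/
def ExcLog (m g d N : ℕ) (A B : ℝ) (ξ : Fin g → ℂ) : Set (Fin m → ℕ) :=
  {x | (∀ j, 1 ≤ x j ∧ x j ≤ N) ∧
    ∃ P : MvPolynomial (Fin m) (MvPolynomial (Fin g) ℤ), (∀ j, P.degreeOf j ≤ d) ∧
      (∀ e i, (P.coeff e).degreeOf i ≤ d) ∧ (∀ e u, |(((P.coeff e).coeff u : ℤ) : ℝ)| ≤ (N : ℝ) ^ A) ∧
      ∃ e, MvPolynomial.aeval ξ (P.coeff e) ≠ 0 ∧
        ‖MvPolynomial.eval₂ (MvPolynomial.aeval ξ).toRingHom (fun j => (Real.log (x j) : ℂ)) P‖ ≤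
          (N : ℝ) ^ (-B) * ‖MvPolynomial.aeval ξ (P.coeff e)‖}

theorem ExcLog_sub (m g d N : ℕ) (A B : ℝ) (ξ : Fin g → ℂ) :
    ExcLog m g d N A B ξ ⊆ (Fintype.piFinset fun _ : Fin m => Finset.Icc 1 N : Finset (Fin m → ℕ)) := by
  intro t ht
  rw [Finset.mem_coe, Fintype.mem_piFinset]
  exact fun j => Finset.mem_Icc.2 (ht.1 j)

theorem ExcLog_fin (m g d N : ℕ) (A B : ℝ) (ξ : Fin g → ℂ) : (ExcLog m g d N A B ξ).Finite :=
  (Finset.finite_toSet _).subset (ExcLog_sub m g d N A B ξ)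

theorem Mg_const {m : ℕ} {α : Type} (X : ℝ → Finset α) (T : ℝ) :
    Mg (fun _ : Fin m => X) T = m * ((X T).card : ℝ) ^ (m - 1) := by
  classical
  rw [Mg]
  have h1 : ∀ j : Fin m, ∏ i : Fin m, (if i = j then (1 : ℝ) else ((X T).card : ℝ)) = ((X T).card : ℝ) ^ (m - 1) := by
    intro j
    rw [← Finset.mul_prod_erase _ _ (Finset.mem_univ j), if_pos rfl, one_mul]
    rw [Finset.prod_congr rfl (g := fun _ => ((X T).card : ℝ)) (by
      intro i hi
      rw [if_neg (Finset.ne_of_mem_erase hi)])]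
    rw [Finset.prod_const, Finset.card_erase_of_mem (Finset.mem_univ _), Finset.card_univ, Fintype.card_fin]
  rw [Finset.sum_congr rfl fun j _ => h1 j, Finset.sum_const, Finset.card_univ, Fintype.card_fin, nsmul_eq_mul]

theorem excLog_count (m g d : ℕ) (hm : 1 ≤ m) (A ε : ℝ) (hε : 0 < ε) : ∃ B C : ℝ, ∀ N : ℕ, 1 ≤ N →
    ∀ ξ : Fin g → ℂ, ((ExcLog m g d N A B ξ).ncard : ℝ) ≤ C * (N : ℝ) ^ ((m : ℝ) - 1 + ε) := by
  classical
  obtain ⟨B, C, T2, hB, hC, hT2, hu⟩ := multi_arb (κ := Unit) m (fun _ => fun T => IT T)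
    (fun _ => fun (x : ℕ) (_ : Unit) => ((Real.log x : ℝ) : ℂ)) (fun _ => oneVar_log) (Fin g → Fin (d + 1)) d A ε hε
  refine ⟨B, C * m + T2 ^ m, fun N hN ξ => ?_⟩
  have hN1 : (1 : ℝ) ≤ N := by exact_mod_cast hN
  have hNp : (0 : ℝ) < N := by linarith
  have hm1 : (1 : ℝ) ≤ m := by exact_mod_cast hm
  have hone : 1 ≤ (N : ℝ) ^ ((m : ℝ) - 1 + ε) := Real.one_le_rpow hN1 (by linarith)
  have hfin := ExcLog_fin m g d N A B ξ
  rw [Set.ncard_eq_toFinset_card _ hfin]
  rcases le_or_gt T2 (N : ℝ) with hT | hT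
  · have h1 := hu N hT (fun u => ∏ i, ξ i ^ (u i : ℕ)) hfin.toFinset (by
      intro x hx
      have h2 := ExcLog_sub m g d N A B ξ (hfin.mem_toFinset.1 hx)
      rw [Finset.mem_coe, Fintype.mem_piFinset] at h2
      rw [Fintype.mem_piFinset]
      intro j
      have h3 := h2 j
      simp only [IT, Nat.floor_natCast]
      exact h3) (by
      intro x hx
      obtain ⟨hx1, P, hPd, hPc, hPh, e, he0, hes⟩ := hfin.mem_toFinset.1 hx
      -- the coefficients
      set c : (Fin m → Unit → Fin (d + 1)) → (Fin g → Fin (d + 1)) → ℤ := fun e u =>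
        (P.coeff (sO fun j => e j ())).coeff (sO u) with hc
      have hcoef : ∀ e : Fin m → Unit → Fin (d + 1), ∑ u : Fin g → Fin (d + 1), (∏ i, ξ i ^ (u i : ℕ)) * (c e u : ℂ) =
          MvPolynomial.aeval ξ (P.coeff (sO fun j => e j ())) := by
        intro e
        rw [MvPolynomial.aeval_def, eval₂_eq_sum (d := d) _ _ _ (hPc _)]
        refine Finset.sum_congr rfl fun u _ => ?_
        simp only [hc]
        rw [mul_comm]
        simp
      obtain ⟨e1, he1⟩ := exists_sO P hPd e (by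
        rw [MvPolynomial.mem_support_iff]
        intro h0
        rw [h0, map_zero] at he0
        exact he0 rfl)
      refine ⟨c, fun e u => hPh _ _, fun j _ => e1 j, ?_, ?_⟩
      · have h9 := hcoef (fun j _ => e1 j)
        rw [he1] at h9
        rw [← h9] at he0
        exact he0
      · beta_reduce
        rw [hcoef (fun j _ => e1 j), he1]
        refine le_trans (le_of_eq ?_) hes
        congr 1
        rw [eval₂_eq_sum (d := d) _ _ _ hPd]
        refine Fintype.sum_equiv ((Equiv.refl (Fin m)).piCongr fun _ => Equiv.funUnique Unit (Fin (d + 1))) _ _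
          fun e => ?_
        rw [hcoef]
        have h4 : ((Equiv.refl (Fin m)).piCongr fun _ => Equiv.funUnique Unit (Fin (d + 1))) e =
            fun j => e j () := by
          funext j
          rfl
        rw [h4]
        congr 1
        simp [mg])
    refine h1.trans ?_
    rw [Mg_const]
    have h2 : ((IT (N : ℝ)).card : ℝ) = N := by
      simp [IT]
    rw [h2]
    have h3 : (N : ℝ) ^ ((m : ℝ) - 1 + ε) = (N : ℝ) ^ (m - 1) * (N : ℝ) ^ ε := by
      rw [Real.rpow_add hNp, ← Real.rpow_natCast, Nat.cast_sub hm, Nat.cast_one]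
    rw [h3]
    have h4 : 0 ≤ (N : ℝ) ^ (m - 1) * (N : ℝ) ^ ε := by positivity
    have h5 : (0 : ℝ) ≤ T2 ^ m := by positivity
    calc C * (N : ℝ) ^ ε * (m * (N : ℝ) ^ (m - 1)) = C * m * ((N : ℝ) ^ (m - 1) * (N : ℝ) ^ ε) := by ring
      _ ≤ (C * m + T2 ^ m) * ((N : ℝ) ^ (m - 1) * (N : ℝ) ^ ε) := mul_le_mul_of_nonneg_right (by linarith) h4
  · have h1 : hfin.toFinset.card ≤ N ^ m := by
      have h2 : hfin.toFinset ⊆ Fintype.piFinset fun _ : Fin m => Finset.Icc 1 N := by
        intro x hx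
        have h3 := ExcLog_sub m g d N A B ξ (hfin.mem_toFinset.1 hx)
        rwa [Finset.mem_coe] at h3
      have h3 := Finset.card_le_card h2
      rwa [Fintype.card_piFinset, Finset.prod_const, Finset.card_univ, Fintype.card_fin, Nat.card_Icc,
        Nat.add_sub_cancel] at h3
    have h2 : (hfin.toFinset.card : ℝ) ≤ (N : ℝ) ^ m := by exact_mod_cast h1
    have h3 : (N : ℝ) ^ m ≤ T2 ^ m := pow_le_pow_left₀ hNp.le hT.le m
    have h4 : 0 ≤ C * m := by positivity
    have h5 : (0 : ℝ) ≤ T2 ^ m := by positivity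
    calc (hfin.toFinset.card : ℝ) ≤ T2 ^ m := h2.trans h3
      _ ≤ (C * m + T2 ^ m) * 1 := by linarith
      _ ≤ (C * m + T2 ^ m) * (N : ℝ) ^ ((m : ℝ) - 1 + ε) := mul_le_mul_of_nonneg_left hone (by linarith)

end Pool.Agent.Y890.UC
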