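import Pool.Agent.Y890.UC.Flag
import Pool.Agent.Y120.RealUni

/-!
# One rational variable: at most `C T ^ ε` exceptional points, for arbitrary constants
-/

set_option autoImplicit false
set_option linter.unusedSectionVars false

open Set Filter Topology

namespace Pool.Agent.Y890.UC

open Pool.Agent.TH818.AR Pool.Agent.TH818.AP Pool.Agent.Y120

/-- the numbers `g l` satisfy a relation whose coefficients are integer combinations of the constants
`ξ s`, up to `δ` times one of the coefficients -/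
def RelA {h ι : Type} [Fintype h] [Fintype ι] (ξ : h → ℂ) (g : ι → ℂ) (H δ : ℝ) : Prop :=
  ∃ c : ι → h → ℤ, (∀ l s, |(c l s : ℝ)| ≤ H) ∧ ∃ l₀, ∑ s, ξ s * (c l₀ s : ℂ) ≠ 0 ∧
    ‖∑ l, (∑ s, ξ s * (c l s : ℂ)) * g l‖ ≤ δ * ‖∑ s, ξ s * (c l₀ s : ℂ)‖

variable {σ : Type} [Fintype σ] [DecidableEq σ]

/-- the exceptional rational points -/
def ExcA {h : Type} [Fintype h] (d : ℕ) (f : σ → ℝ → ℝ) (a b A B T : ℝ) (ξ : h → ℂ) : Set ℚ :=
  {q : ℚ | (q : ℝ) ∈ Icc a b ∧ (q.den : ℝ) ≤ T ∧ RelA ξ (fun l => ((gm d f l q : ℝ) : ℂ)) (T ^ A) (T ^ (-B))}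

/-- at most `C T^ε` exceptional points, for arbitrary constants -/
theorem uniform_arb (f : σ → ℝ → ℝ) (a b : ℝ) (hab : a < b) (han : ∀ i, AnalyticOnNhd ℝ (f i) (Icc a b))
    (hf : AInd f a b) (h : Type) [Fintype h] [DecidableEq h] (d : ℕ) (A ε : ℝ) (hε : 0 < ε) :
    ∃ B C T2 : ℝ, 0 < C ∧ 2 ≤ T2 ∧ ∀ T : ℝ, T2 ≤ T → ∀ ξ : h → ℂ,
      (ExcA d f a b A B T ξ).Finite ∧ ((ExcA d f a b A B T ξ).ncard : ℝ) ≤ C * T ^ ε := by
  classical
  set Ch := realCharts f a b hab han hf with hCh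
  set A₀ : ℕ := ⌈A⌉₊ with hA₀
  set fB : ℕ := flagB (Fintype.card h) A₀ with hfB
  set B' : ℕ := fB + 1 with hB'
  set M : ℝ := max (max |a| |b|) 1 with hM
  have hM1 : 1 ≤ M := le_max_right _ _
  have hM0 : 0 < M := by linarith
  obtain ⟨B₂, C₂, T₀, hT₀2, hloc⟩ := local_thmN (g := 0) (σ := σ) (S := h) Ch (EE0 σ d) ε hε A₀ B'
  set nh : ℝ := (Fintype.card h : ℝ) with hnh
  have hnh0 : 0 ≤ nh := by positivity
  refine ⟨2 * B₂ + A₀ + 1, nh * (C₂ * ((b - a) * M ^ ε + 1)) + 1, max (max T₀ M) (max nh 2), ?_,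
    le_max_of_le_right (le_max_right _ _), ?_⟩
  · have : 0 ≤ (b - a) * M ^ ε := mul_nonneg (by linarith) (by positivity)
    positivity
  intro T hT ξ
  have hTT₀ : T₀ ≤ T := (le_max_left _ _).trans ((le_max_left _ _).trans hT)
  have hTM : M ≤ T := (le_max_right _ _).trans ((le_max_left _ _).trans hT)
  have hTh : nh ≤ T := (le_max_left _ _).trans ((le_max_right _ _).trans hT)
  have hT2 : 2 ≤ T := (le_max_right _ _).trans ((le_max_right _ _).trans hT)
  have hT1 : 1 ≤ T := by linarith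
  have hTp : 0 < T := by linarith
  set T' : ℝ := M * T with hT'
  have hTT' : T ≤ T' := by rw [hT']; nlinarith
  have hT'p : 0 < T' := by positivity
  have hT'1 : 1 ≤ T' := hT1.trans hTT'
  have hT'T : T' ≤ T ^ 2 := by rw [hT', sq]; exact mul_le_mul_of_nonneg_right hTM hTp.le
  obtain ⟨𝒦, h𝒦card, h𝒦1, h𝒦⟩ := flag A₀ hT2 ξ
  -- the exceptional set
  set B : ℝ := 2 * B₂ + A₀ + 1 with hB
  have hsub : ExcA d f a b A B T ξ ⊆ (RT a b T : Finset ℚ) := by
    intro q hq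
    rw [Finset.mem_coe]
    exact mem_RT.2 ⟨hq.1, hq.2.1⟩
  have hfin : (ExcA d f a b A B T ξ).Finite := (Finset.finite_toSet _).subset hsub
  refine ⟨hfin, ?_⟩
  rw [Set.ncard_eq_toFinset_card _ hfin]
  set F := hfin.toFinset with hF
  have hFmem : ∀ q ∈ F, q ∈ ExcA d f a b A B T ξ := fun q hq => hfin.mem_toFinset.1 hq
  have hrpos : 0 < T' ^ (-ε) := Real.rpow_pos_of_pos hT'p _
  -- the relation for one of the systems
  set P : (h → ℂ) → ℚ → Prop := fun K q =>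
    ExcN ZR T' A₀ B₂ B' K (EE0 σ d) (fun i => Ch.u (⟨a, left_mem_Icc.2 hab.le⟩ : Icc a b) i ((q : ℝ) : ℂ)) with hP
  have hu : ∀ (θ : Icc a b) (i : σ) (t : ℂ), Ch.u θ i t = ((f i t.re : ℝ) : ℂ) := fun θ i t => rfl
  have hcov : ∀ q ∈ F, ∃ K ∈ 𝒦, P K q := by
    intro q hq
    obtain ⟨hqI, hqd, c, hcA, l₀, hl₀, hcs⟩ := hFmem q hq
    obtain ⟨K, hK, l, hl, hKc, l₁, hl₁⟩ := h𝒦 _ c (fun e s => (hcA e s).trans (by
      calc T ^ A ≤ T ^ (A₀ : ℝ) := Real.rpow_le_rpow_of_exponent_le hT1 (Nat.le_ceil _)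
        _ = T ^ A₀ := Real.rpow_natCast _ _)) ⟨l₀, hl₀⟩
    refine ⟨K, hK, ?_⟩
    refine ⟨fun x _ => ((c ((encE σ d).symm x.2) x.1 : ℤ) : ℂ), fun x => ZR_int _, ⟨encE σ d l₁, ?_⟩, ?_, ?_⟩
    · simp only [Equiv.symm_apply_apply]
      refine lt_of_lt_of_le ?_ hl₁
      refine inv_strictAnti₀ (pow_pos hTp _) ?_
      calc T ^ flagB (Fintype.card h) A₀ < T ^ (fB + 1) := pow_lt_pow_right₀ (by linarith) (Nat.lt_succ_self _)
        _ ≤ T' ^ B' := pow_le_pow_left₀ hTp.le hTT' _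
    · intro x j
      rw [Complex.norm_intCast]
      refine (hcA _ _).trans ?_
      calc T ^ A ≤ T ^ (A₀ : ℝ) := Real.rpow_le_rpow_of_exponent_le hT1 (Nat.le_ceil _)
        _ = T ^ A₀ := Real.rpow_natCast _ _
        _ ≤ T' ^ A₀ := pow_le_pow_left₀ hTp.le hTT' _
    · have h2 : ∑ e : EE0 σ d, (∑ s, K s * ((c ((encE σ d).symm e) s : ℤ) : ℂ)) *
          mv (fun i => ((f i (((q : ℝ) : ℂ)).re : ℝ) : ℂ)) (e : σ →₀ ℕ) =
          ∑ l, (∑ s, K s * (c l s : ℂ)) * ((gm d f l q : ℝ) : ℂ) := by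
        simp only [Complex.ofReal_re]
        rw [← Equiv.sum_comp (encE σ d)]
        refine Finset.sum_congr rfl fun e _ => ?_
        rw [encE_val, mv_enc, Equiv.symm_apply_apply, gm]
        push_cast
        rfl
      have h3 : l * ∑ l', (∑ s, K s * (c l' s : ℂ)) * ((gm d f l' q : ℝ) : ℂ) =
          ∑ l', (∑ s, ξ s * (c l' s : ℂ)) * ((gm d f l' q : ℝ) : ℂ) := by
        rw [Finset.mul_sum]
        refine Finset.sum_congr rfl fun l' _ => ?_
        rw [hKc l', mul_assoc]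
      have hlpos : 0 < ‖l‖ := norm_pos_iff.2 hl
      have h4 : ‖∑ l', (∑ s, K s * (c l' s : ℂ)) * ((gm d f l' q : ℝ) : ℂ)‖ ≤
          T ^ (-B) * ‖∑ s, K s * (c l₀ s : ℂ)‖ := by
        have h5 := hcs
        rw [← h3, hKc l₀, norm_mul, norm_mul] at h5
        have h6 : ‖l‖ * ‖∑ l', (∑ s, K s * (c l' s : ℂ)) * ((gm d f l' q : ℝ) : ℂ)‖ ≤
            ‖l‖ * (T ^ (-B) * ‖∑ s, K s * (c l₀ s : ℂ)‖) := by
          calc _ ≤ T ^ (-B) * (‖l‖ * ‖∑ s, K s * (c l₀ s : ℂ)‖) := h5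
            _ = _ := by ring
        exact le_of_mul_le_mul_left h6 hlpos
      have h5 : ‖∑ s, K s * (c l₀ s : ℂ)‖ ≤ nh * T ^ A₀ := by
        calc ‖∑ s, K s * (c l₀ s : ℂ)‖ ≤ ∑ s, ‖K s * (c l₀ s : ℂ)‖ := norm_sum_le _ _
          _ ≤ ∑ s : h, T ^ A₀ := by
              refine Finset.sum_le_sum fun s _ => ?_
              rw [norm_mul, Complex.norm_intCast]
              calc ‖K s‖ * |(c l₀ s : ℝ)| ≤ 1 * T ^ A₀ := by
                    refine mul_le_mul (h𝒦1 K hK s) ?_ (abs_nonneg _) zero_le_one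
                    refine (hcA _ _).trans ?_
                    calc T ^ A ≤ T ^ (A₀ : ℝ) := Real.rpow_le_rpow_of_exponent_le hT1 (Nat.le_ceil _)
                      _ = T ^ A₀ := Real.rpow_natCast _ _
                _ = T ^ A₀ := one_mul _
          _ = nh * T ^ A₀ := by rw [Finset.sum_const, Finset.card_univ, nsmul_eq_mul]
      have h6 : ‖∑ l', (∑ s, K s * (c l' s : ℂ)) * ((gm d f l' q : ℝ) : ℂ)‖ ≤ (T' ^ B₂)⁻¹ := by
        refine h4.trans ?_
        calc T ^ (-B) * ‖∑ s, K s * (c l₀ s : ℂ)‖ ≤ T ^ (-B) * (nh * T ^ A₀) :=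
              mul_le_mul_of_nonneg_left h5 (Real.rpow_pos_of_pos hTp _).le
          _ ≤ T ^ (-B) * (T * T ^ A₀) := by
              refine mul_le_mul_of_nonneg_left ?_ (Real.rpow_pos_of_pos hTp _).le
              exact mul_le_mul_of_nonneg_right hTh (pow_nonneg hTp.le _)
          _ = T ^ (-((2 : ℝ) * B₂)) := by
              rw [← pow_succ', ← Real.rpow_natCast, ← Real.rpow_add hTp]
              congr 1
              rw [hB]
              push_cast
              ring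
          _ ≤ (T' ^ B₂)⁻¹ := by
              rw [Real.rpow_neg hTp.le]
              refine inv_anti₀ (pow_pos hT'p _) ?_
              calc T' ^ B₂ ≤ (T ^ 2) ^ B₂ := pow_le_pow_left₀ hT'p.le hT'T _
                _ = T ^ ((2 : ℝ) * B₂) := by
                    rw [← pow_mul, ← Real.rpow_natCast]
                    push_cast
                    rfl
      rw [← h2] at h6
      exact h6
  have hFsub : F ⊆ 𝒦.biUnion fun K => F.filter fun q => P K q := by
    intro q hq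
    obtain ⟨K, hK, hKq⟩ := hcov q hq
    exact Finset.mem_biUnion.2 ⟨K, hK, Finset.mem_filter.2 ⟨hq, hKq⟩⟩
  have hcountK : ∀ K ∈ 𝒦, ((F.filter fun q => P K q).card : ℝ) ≤ C₂ * ((b - a) / T' ^ (-ε) + 1) := by
    intro K hK
    refine cover_count hab hrpos _ (fun q hq => (hFmem q (Finset.mem_filter.1 hq).1).1) C₂ ?_
    intro τ hτ
    have h1 := hloc T' (hTT₀.trans hTT') ZR ZR_norm K (fun s => (h𝒦1 K hK s).trans (one_le_pow₀ hT'1)) ⟨τ, hτ⟩
      (((F.filter fun q => P K q).filter fun q : ℚ => |(q : ℝ) - τ| ≤ T' ^ (-ε)).image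
        fun q : ℚ => (((q : ℝ) : ℂ))) (by
      intro t ht
      rw [Finset.mem_image] at ht
      obtain ⟨q, hq, rfl⟩ := ht
      rw [Finset.mem_filter, Finset.mem_filter] at hq
      obtain ⟨⟨hqF, hqP⟩, hqτ⟩ := hq
      obtain ⟨hqI, hqd, -⟩ := hFmem q hqF
      refine ⟨⟨by simp, by simpa using hqI⟩, ?_, ?_, hqP⟩
      · change ‖((q : ℝ) : ℂ) - ((τ : ℝ) : ℂ)‖ ≤ _
        rw [← Complex.ofReal_sub, Complex.norm_real, Real.norm_eq_abs]
        exact hqτ
      · refine ⟨fun _ => (q.num : ℂ), ZR_int _, fun _ => ((q.den : ℤ) : ℂ), ZR_int _, ?_, ?_, ?_, ?_⟩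
        · have := q.den_ne_zero
          simp
        · intro s
          rw [Complex.norm_intCast]
          have h2 : (q.num : ℝ) = q * q.den := by
            have := Rat.mul_den_eq_num q
            exact_mod_cast this.symm
          rw [h2, abs_mul, Nat.abs_cast]
          have h3 : |(q : ℝ)| ≤ M := (abs_le_max_abs_abs hqI.1 hqI.2).trans (le_max_left _ _)
          exact mul_le_mul h3 hqd (by positivity) hM0.le
        · intro s
          rw [Complex.norm_intCast]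
          have h2 : |((q.den : ℤ) : ℝ)| = (q.den : ℝ) := by simp
          rw [h2]
          exact hqd.trans hTT'
        · have := Rat.num_div_den q
          have h3 : ((q : ℝ) : ℂ) = ((q : ℚ) : ℂ) := by simp
          rw [h3]
          conv_lhs => rw [← this]
          push_cast
          rfl)
    rwa [Finset.card_image_of_injective] at h1
    intro q q' hqq
    have h2 : ((q : ℝ) : ℂ) = ((q' : ℝ) : ℂ) := hqq
    exact_mod_cast h2
  have h5 : (b - a) / T' ^ (-ε) = (b - a) * M ^ ε * T ^ ε := by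
    rw [Real.rpow_neg hT'p.le, div_inv_eq_mul, hT', Real.mul_rpow hM0.le hTp.le]
    ring
  have h6 : 1 ≤ T ^ ε := Real.one_le_rpow hT1 hε.le
  have h7 : (0 : ℝ) ≤ C₂ := by positivity
  have h8 : 0 ≤ (b - a) * M ^ ε := mul_nonneg (by linarith) (by positivity)
  calc (F.card : ℝ) ≤ ((𝒦.biUnion fun K => F.filter fun q => P K q).card : ℝ) := by
        exact_mod_cast Finset.card_le_card hFsub
    _ ≤ ∑ K ∈ 𝒦, ((F.filter fun q => P K q).card : ℝ) := by exact_mod_cast Finset.card_biUnion_le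
    _ ≤ ∑ K ∈ 𝒦, (C₂ * ((b - a) / T' ^ (-ε) + 1)) := Finset.sum_le_sum hcountK
    _ = 𝒦.card * (C₂ * ((b - a) / T' ^ (-ε) + 1)) := by rw [Finset.sum_const, nsmul_eq_mul]
    _ ≤ nh * (C₂ * ((b - a) * M ^ ε * T ^ ε + T ^ ε)) := by
        rw [h5]
        refine mul_le_mul (by rw [hnh]; exact_mod_cast h𝒦card) ?_ (by positivity) hnh0
        exact mul_le_mul_of_nonneg_left (by linarith) h7
    _ = nh * (C₂ * ((b - a) * M ^ ε + 1)) * T ^ ε := by ring
    _ ≤ (nh * (C₂ * ((b - a) * M ^ ε + 1)) + 1) * T ^ ε := by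
        refine mul_le_mul_of_nonneg_right (by linarith) (by positivity)

end Pool.Agent.Y890.UC
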