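import Pool.Agent.Y890.UC.Uni

/-!
# Several variables, for arbitrary constants: an abstract induction
-/

set_option autoImplicit false
set_option linter.unusedSectionVars false

open Set Filter Topology Finset

namespace Pool.Agent.Y890.UC

/-- few exceptional points in one variable, for all systems of constants -/
def OneVar {α κ : Type} [Fintype κ] [DecidableEq κ] (X : ℝ → Finset α) (v : α → κ → ℂ) : Prop :=
  ∀ (h : Type) [Fintype h] [DecidableEq h] (d : ℕ) (A ε : ℝ), 0 < ε → ∃ B C T2 : ℝ, 0 < C ∧ 2 ≤ T2 ∧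
    ∀ T : ℝ, T2 ≤ T → ∀ ξ : h → ℂ, ∀ Y ⊆ X T,
      (∀ x ∈ Y, RelA ξ (fun l : κ → Fin (d + 1) => ∏ i, v x i ^ (l i : ℕ)) (T ^ A) (T ^ (-B))) →
      (Y.card : ℝ) ≤ C * T ^ ε

/-- the size of the union of the coordinate hyperplanes -/
noncomputable def Mg {α : Type} {n : ℕ} (X : Fin n → ℝ → Finset α) (T : ℝ) : ℝ :=
  ∑ j, ∏ i, (if i = j then (1 : ℝ) else ((X i T).card : ℝ))

theorem Mg_succ {α : Type} {n : ℕ} (X : Fin (n + 1) → ℝ → Finset α) (T : ℝ) :
    Mg X T = ∏ i : Fin n, ((X i.succ T).card : ℝ) + (X 0 T).card * Mg (fun i => X i.succ) T := by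
  rw [Mg, Mg, Fin.sum_univ_succ, Finset.mul_sum]
  congr 1
  · rw [Fin.prod_univ_succ]
    simp
  · refine Finset.sum_congr rfl fun j _ => ?_
    rw [Fin.prod_univ_succ, if_neg (Fin.succ_ne_zero j).symm]
    congr 1
    refine Finset.prod_congr rfl fun i _ => ?_
    by_cases hij : i = j
    · subst hij; simp
    · rw [if_neg hij, if_neg (fun h => hij (Fin.succ_injective _ h))]

/-- monomials in several groups of variables -/
noncomputable def mg {α κ : Type} [Fintype κ] {n d : ℕ} (v : Fin n → α → κ → ℂ) (x : Fin n → α)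
    (e : Fin n → κ → Fin (d + 1)) : ℂ := ∏ j, ∏ i, v j (x j) i ^ (e j i : ℕ)

theorem multi_arb {α κ : Type} [Fintype κ] [DecidableEq κ] (n : ℕ) :
    ∀ (X : Fin n → ℝ → Finset α) (v : Fin n → α → κ → ℂ) (_ : ∀ j, OneVar (X j) (v j))
      (h : Type) [Fintype h] [DecidableEq h] (d : ℕ) (A ε : ℝ), 0 < ε →
    ∃ B C T2 : ℝ, 0 ≤ B ∧ 0 < C ∧ 2 ≤ T2 ∧ ∀ T : ℝ, T2 ≤ T → ∀ ξ : h → ℂ,
      ∀ Y ⊆ Fintype.piFinset (fun j => X j T),
        (∀ x ∈ Y, RelA ξ (fun e : Fin n → κ → Fin (d + 1) => mg v x e) (T ^ A) (T ^ (-B))) →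
        (Y.card : ℝ) ≤ C * T ^ ε * Mg X T := by
  classical
  induction n with
  | zero =>
    intro X v _ h _ _ d A ε hε
    refine ⟨1, 1, 2, zero_le_one, one_pos, le_rfl, fun T hT ξ Y hY hrel => ?_⟩
    have hemp : Y = ∅ := by
      rw [Finset.eq_empty_iff_forall_notMem]
      intro x hx
      obtain ⟨c, hc, l₀, hl₀, hs⟩ := hrel x hx
      have h1 : ∑ l : Fin 0 → κ → Fin (d + 1), (∑ s, ξ s * (c l s : ℂ)) * mg v x l = ∑ s, ξ s * (c l₀ s : ℂ) := by
        rw [Fintype.sum_subsingleton _ l₀]
        simp [mg]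
      rw [h1] at hs
      have h2 : 0 < ‖∑ s, ξ s * (c l₀ s : ℂ)‖ := norm_pos_iff.2 hl₀
      have h3 : T ^ (-(1 : ℝ)) ≤ 1 / 2 := by
        rw [Real.rpow_neg (by linarith), Real.rpow_one, one_div]
        exact inv_anti₀ (by norm_num) hT
      nlinarith
    rw [hemp]
    have : (0 : ℝ) ≤ T ^ ε := (Real.rpow_pos_of_pos (by linarith) _).le
    simp [Mg]
  | succ n ih =>
    intro X v hv h _ _ d A ε hε
    obtain ⟨Bn, Cn, Tn, hBn, hCn, hTn, hn⟩ := ih (fun j => X j.succ) (fun j => v j.succ) (fun j => hv j.succ) h d A ε hε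
    obtain ⟨B1, C1, T1, hC1, hT1, h1⟩ := hv 0 ((Fin n → κ → Fin (d + 1)) × h) d A ε hε
    refine ⟨max B1 0 + Bn, max Cn C1, max Tn T1, by positivity, lt_max_of_lt_left hCn, le_max_of_le_left hTn, ?_⟩
    intro T hT ξ Y hY hrel
    have hTTn : Tn ≤ T := (le_max_left _ _).trans hT
    have hTT1 : T1 ≤ T := (le_max_right _ _).trans hT
    have hT2 : 2 ≤ T := hTn.trans hTTn
    have hTp : 0 < T := by linarith
    have hT1' : 1 ≤ T := by linarith
    have hTε : 0 ≤ T ^ ε := (Real.rpow_pos_of_pos hTp _).le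
    -- the exceptional tails
    set Z : Finset (Fin n → α) := (Fintype.piFinset fun j : Fin n => X j.succ T).filter fun x' =>
      RelA ξ (fun e : Fin n → κ → Fin (d + 1) => mg (fun j => v j.succ) x' e) (T ^ A) (T ^ (-Bn)) with hZ
    have hZc := hn T hTTn ξ Z (Finset.filter_subset _ _) (fun x hx => (Finset.mem_filter.1 hx).2)
    have hYt : ∀ x ∈ Y, (fun j : Fin n => x j.succ) ∈ Fintype.piFinset fun j : Fin n => X j.succ T := by
      intro x hx
      have := Fintype.mem_piFinset.1 (hY hx)
      exact Fintype.mem_piFinset.2 fun j => this j.succ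
    -- the fibres over good tails
    have hfib : ∀ x' : Fin n → α, x' ∉ Z →
        (((Y.filter fun x => (fun j : Fin n => x j.succ) = x').card : ℕ) : ℝ) ≤ C1 * T ^ ε := by
      intro x' hx'
      set Yx := (Y.filter fun x => (fun j : Fin n => x j.succ) = x') with hYx
      have hinj : (Yx.image fun x => x 0).card = Yx.card := by
        refine Finset.card_image_of_injOn ?_
        intro x hx y hy hxy
        rw [Finset.mem_coe, Finset.mem_filter] at hx hy
        funext j
        refine Fin.cases hxy (fun i => ?_) j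
        exact congrFun (hx.2.trans hy.2.symm) i
      rw [← hinj]
      refine h1 T hTT1 (fun p => ξ p.2 * mg (fun j => v j.succ) x' p.1) _ ?_ ?_
      · intro y hy
        obtain ⟨x, hx, rfl⟩ := Finset.mem_image.1 hy
        exact Fintype.mem_piFinset.1 (hY (Finset.mem_filter.1 hx).1) 0
      · intro y hy
        obtain ⟨x, hx, rfl⟩ := Finset.mem_image.1 hy
        obtain ⟨hxY, hxx'⟩ := Finset.mem_filter.1 hx
        obtain ⟨c, hc, l₀, hl₀, hs⟩ := hrel x hxY
        have hx'pi : x' ∈ Fintype.piFinset fun j : Fin n => X j.succ T := by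
          rw [← hxx']
          exact hYt x hxY
        have hnot : ¬ RelA ξ (fun e : Fin n → κ → Fin (d + 1) => mg (fun j => v j.succ) x' e) (T ^ A) (T ^ (-Bn)) :=
          fun hcon => hx' (Finset.mem_filter.2 ⟨hx'pi, hcon⟩)
        -- the combination for the exponent of the first variable
        set W : (κ → Fin (d + 1)) → ℂ := fun l =>
          ∑ p : (Fin n → κ → Fin (d + 1)) × h, (ξ p.2 * mg (fun j => v j.succ) x' p.1) *
            (c (Fin.cons l p.1) p.2 : ℂ) with hW
        have hWe : ∀ l, W l = ∑ e : Fin n → κ → Fin (d + 1), (∑ s, ξ s * (c (Fin.cons l e) s : ℂ)) *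
            mg (fun j => v j.succ) x' e := by
          intro l
          simp only [hW]
          rw [Fintype.sum_prod_type]
          refine Finset.sum_congr rfl fun e _ => ?_
          rw [Finset.sum_mul]
          refine Finset.sum_congr rfl fun s _ => ?_
          ring
        have htot : ∑ e : Fin (n + 1) → κ → Fin (d + 1), (∑ s, ξ s * (c e s : ℂ)) * mg v x e =
            ∑ l : κ → Fin (d + 1), W l * ∏ i, v 0 (x 0) i ^ (l i : ℕ) := by
          rw [← (Fin.consEquiv (fun _ : Fin (n + 1) => κ → Fin (d + 1))).sum_comp, Fintype.sum_prod_type]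
          refine Finset.sum_congr rfl fun l _ => ?_
          rw [hWe, Finset.sum_mul]
          refine Finset.sum_congr rfl fun e _ => ?_
          have h2 : mg v x ((Fin.consEquiv (fun _ : Fin (n + 1) => κ → Fin (d + 1))) (l, e)) =
              (∏ i, v 0 (x 0) i ^ (l i : ℕ)) * mg (fun j => v j.succ) x' e := by
            rw [mg, Fin.prod_univ_succ, mg, ← hxx']
            rfl
          rw [h2]
          have h3 : ((Fin.consEquiv (fun _ : Fin (n + 1) => κ → Fin (d + 1))) (l, e)) =
            (Fin.cons l e : Fin (n + 1) → κ → Fin (d + 1)) := rfl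
          rw [h3]
          ring
        have hl₀c : (Fin.cons (l₀ 0) (fun j : Fin n => l₀ j.succ) : Fin (n + 1) → κ → Fin (d + 1)) = l₀ :=
          Fin.cons_self_tail l₀
        have hbig : T ^ (-Bn) * ‖∑ s, ξ s * (c l₀ s : ℂ)‖ < ‖W (l₀ 0)‖ := by
          by_contra hcon
          rw [not_lt] at hcon
          apply hnot
          refine ⟨fun e s => c (Fin.cons (l₀ 0) e) s, fun e s => hc _ _, fun j => l₀ j.succ, ?_, ?_⟩
          · change ∑ s, ξ s * (c (Fin.cons (l₀ 0) fun j => l₀ j.succ) s : ℂ) ≠ 0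
            rw [hl₀c]; exact hl₀
          · change ‖∑ e, (∑ s, ξ s * (c (Fin.cons (l₀ 0) e) s : ℂ)) * mg (fun j => v j.succ) x' e‖ ≤
              T ^ (-Bn) * ‖∑ s, ξ s * (c (Fin.cons (l₀ 0) fun j => l₀ j.succ) s : ℂ)‖
            rw [hl₀c, ← hWe]; exact hcon
        have hw0 : 0 < ‖∑ s, ξ s * (c l₀ s : ℂ)‖ := norm_pos_iff.2 hl₀
        refine ⟨fun l p => c (Fin.cons l p.1) p.2, fun l p => hc _ _, l₀ 0, ?_, ?_⟩
        · intro h0
          have h2 : W (l₀ 0) = 0 := h0
          rw [h2, norm_zero] at hbig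
          have : 0 < T ^ (-Bn) := Real.rpow_pos_of_pos hTp _
          have := mul_pos this hw0
          linarith
        · change ‖∑ l, W l * ∏ i, v 0 (x 0) i ^ (l i : ℕ)‖ ≤ T ^ (-B1) * ‖W (l₀ 0)‖
          rw [← htot]
          refine hs.trans ?_
          have h2 : T ^ (-(max B1 0 + Bn)) = T ^ (-(max B1 0)) * T ^ (-Bn) := by
            rw [← Real.rpow_add hTp]
            congr 1
            ring
          rw [h2, mul_assoc]
          have h3 : T ^ (-(max B1 0)) ≤ T ^ (-B1) :=
            Real.rpow_le_rpow_of_exponent_le hT1' (neg_le_neg (le_max_left _ _))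
          exact mul_le_mul h3 hbig.le (by positivity) (Real.rpow_pos_of_pos hTp _).le
    -- counting
    have hsplit := Finset.card_filter_add_card_filter_not (s := Y)
      (p := fun x : Fin (n + 1) → α => (fun j : Fin n => x j.succ) ∈ Z)
    have hp1 : ((Y.filter fun x : Fin (n + 1) → α => (fun j : Fin n => x j.succ) ∈ Z).card : ℝ) ≤
        (X 0 T).card * Z.card := by
      have hle : (Y.filter fun x : Fin (n + 1) → α => (fun j : Fin n => x j.succ) ∈ Z).card ≤
          (X 0 T ×ˢ Z).card := by
        refine Finset.card_le_card_of_injOn (fun t => (t 0, fun j : Fin n => t j.succ)) ?_ ?_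
        · intro t ht
          rw [Finset.mem_coe, Finset.mem_filter] at ht
          rw [Finset.mem_coe, Finset.mem_product]
          exact ⟨Fintype.mem_piFinset.1 (hY ht.1) 0, ht.2⟩
        · intro t _ t' _ heq
          simp only [Prod.mk.injEq] at heq
          funext j
          refine Fin.cases heq.1 (fun i => congrFun heq.2 i) j
      rw [Finset.card_product] at hle
      exact_mod_cast hle
    have hp2 : ((Y.filter fun x : Fin (n + 1) → α => ¬ (fun j : Fin n => x j.succ) ∈ Z).card : ℝ) ≤
        C1 * T ^ ε * ∏ i : Fin n, ((X i.succ T).card : ℝ) := by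
      have h2 := Finset.card_eq_sum_card_fiberwise (s := Y.filter fun x : Fin (n + 1) → α =>
          ¬ (fun j : Fin n => x j.succ) ∈ Z) (t := Fintype.piFinset fun j : Fin n => X j.succ T)
        (f := fun x => fun j : Fin n => x j.succ) (by
          intro x hx
          rw [Finset.mem_coe, Finset.mem_filter] at hx
          exact hYt x hx.1)
      rw [h2]
      push_cast
      calc ∑ x' ∈ Fintype.piFinset fun j : Fin n => X j.succ T,
            ((((Y.filter fun x : Fin (n + 1) → α => ¬ (fun j : Fin n => x j.succ) ∈ Z).filter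
              fun x => (fun j : Fin n => x j.succ) = x').card : ℕ) : ℝ)
          ≤ ∑ x' ∈ Fintype.piFinset fun j : Fin n => X j.succ T, C1 * T ^ ε := by
            refine Finset.sum_le_sum fun x' _ => ?_
            by_cases hx' : x' ∈ Z
            · have h3 : ((Y.filter fun x : Fin (n + 1) → α => ¬ (fun j : Fin n => x j.succ) ∈ Z).filter
                  fun x => (fun j : Fin n => x j.succ) = x') = ∅ := by
                rw [Finset.eq_empty_iff_forall_notMem]
                intro x hx
                rw [Finset.mem_filter, Finset.mem_filter] at hx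
                exact hx.1.2 (hx.2 ▸ hx')
              rw [h3, Finset.card_empty, Nat.cast_zero]
              positivity
            · refine le_trans ?_ (hfib x' hx')
              exact_mod_cast Finset.card_le_card (Finset.filter_subset_filter _ (Finset.filter_subset _ _))
        _ = C1 * T ^ ε * ∏ i : Fin n, ((X i.succ T).card : ℝ) := by
            rw [Finset.sum_const, Fintype.card_piFinset, nsmul_eq_mul]
            push_cast
            ring
    have hP0 : 0 ≤ ∏ i : Fin n, ((X i.succ T).card : ℝ) := Finset.prod_nonneg fun _ _ => Nat.cast_nonneg _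
    have hM0 : 0 ≤ Mg (fun i => X i.succ) T :=
      Finset.sum_nonneg fun j _ => Finset.prod_nonneg fun i _ => by split_ifs <;> positivity
    have hCC : 0 < max Cn C1 := lt_max_of_lt_left hCn
    rw [Mg_succ]
    have hYc : (Y.card : ℝ) = ((Y.filter fun x : Fin (n + 1) → α => (fun j : Fin n => x j.succ) ∈ Z).card : ℝ) +
        ((Y.filter fun x : Fin (n + 1) → α => ¬ (fun j : Fin n => x j.succ) ∈ Z).card : ℝ) := by
      exact_mod_cast hsplit.symm
    rw [hYc]
    calc ((Y.filter fun x : Fin (n + 1) → α => (fun j : Fin n => x j.succ) ∈ Z).card : ℝ) +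
        ((Y.filter fun x : Fin (n + 1) → α => ¬ (fun j : Fin n => x j.succ) ∈ Z).card : ℝ)
        ≤ (X 0 T).card * (Cn * T ^ ε * Mg (fun i => X i.succ) T) +
          C1 * T ^ ε * ∏ i : Fin n, ((X i.succ T).card : ℝ) :=
          add_le_add (hp1.trans (mul_le_mul_of_nonneg_left hZc (Nat.cast_nonneg _))) hp2
      _ ≤ (X 0 T).card * (max Cn C1 * T ^ ε * Mg (fun i => X i.succ) T) +
          max Cn C1 * T ^ ε * ∏ i : Fin n, ((X i.succ T).card : ℝ) := by
          refine add_le_add (mul_le_mul_of_nonneg_left ?_ (Nat.cast_nonneg _)) ?_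
          · exact mul_le_mul_of_nonneg_right (mul_le_mul_of_nonneg_right (le_max_left _ _) hTε) hM0
          · exact mul_le_mul_of_nonneg_right (mul_le_mul_of_nonneg_right (le_max_right _ _) hTε) hP0
      _ = max Cn C1 * T ^ ε * (∏ i : Fin n, ((X i.succ T).card : ℝ) + (X 0 T).card * Mg (fun i => X i.succ) T) := by
          ring

end Pool.Agent.Y890.UC
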