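import Pool.Agent.Y890.UC.Multi
import Pool.Agent.TH818.AP.LogZ

/-!
# Instances: values of analytic functions at rational points, logarithms of integers
-/

set_option autoImplicit false
set_option linter.unusedSectionVars false

open Set Filter Topology Finset

namespace Pool.Agent.Y890.UC

open Pool.Agent.TH818.AR Pool.Agent.TH818.AP Pool.Agent.Y120

theorem RelA_congr {h ι : Type} [Fintype h] [Fintype ι] {ξ : h → ℂ} {g g' : ι → ℂ} {H δ : ℝ} (hg : g = g')
    (hr : RelA ξ g H δ) : RelA ξ g' H δ := hg ▸ hr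

/-- values of analytic functions at rational points -/
theorem oneVar_rat {κ : Type} [Fintype κ] [DecidableEq κ] (f : κ → ℝ → ℝ) (a b : ℝ) (hab : a < b)
    (han : ∀ i, AnalyticOnNhd ℝ (f i) (Icc a b)) (hf : AInd f a b) :
    OneVar (fun T => RT a b T) (fun (q : ℚ) i => ((f i q : ℝ) : ℂ)) := by
  classical
  intro h _ _ d A ε hε
  obtain ⟨B, C, T2, hC, hT2, hu⟩ := uniform_arb f a b hab han hf h d A ε hε
  refine ⟨B, C, T2, hC, hT2, fun T hT ξ Y hY hrel => ?_⟩
  obtain ⟨hfin, hle⟩ := hu T hT ξ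
  refine le_trans ?_ hle
  rw [Set.ncard_eq_toFinset_card _ hfin]
  refine Nat.cast_le.2 (Finset.card_le_card fun q hq => ?_)
  rw [Set.Finite.mem_toFinset]
  have h1 := mem_RT.1 (hY hq)
  refine ⟨h1.1, h1.2, ?_⟩
  refine RelA_congr ?_ (hrel q hq)
  funext l
  simp [gm]

section shift

/-- the coefficients of a shifted polynomial -/
noncomputable def tc {d : ℕ} (L : ℂ) (w : Fin (d + 1) → ℂ) (l : Fin (d + 1)) : ℂ :=
  ∑ f : Fin (d + 1), if h : (l : ℕ) + f < d + 1 then L ^ (f : ℕ) * ((((l : ℕ) + f).choose l : ℕ) : ℂ) * w ⟨(l : ℕ) + f, h⟩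
    else 0

theorem tc_sum {d : ℕ} (L y : ℂ) (w : Fin (d + 1) → ℂ) :
    ∑ l, tc L w l * y ^ (l : ℕ) = ∑ i, w i * (L + y) ^ (i : ℕ) := by
  classical
  set W : ℕ → ℂ := fun n => if h : n < d + 1 then w ⟨n, h⟩ else 0 with hW
  have h1 : ∀ l : Fin (d + 1), tc L w l = ∑ i ∈ Finset.range (d + 1),
      if (l : ℕ) ≤ i then L ^ (i - (l : ℕ)) * ((i.choose l : ℕ) : ℂ) * W i else 0 := by
    intro l
    rw [tc]
    have h2 : ∀ f : Fin (d + 1), (if h : (l : ℕ) + f < d + 1 then
        L ^ (f : ℕ) * ((((l : ℕ) + f).choose l : ℕ) : ℂ) * w ⟨(l : ℕ) + f, h⟩ else 0) =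
        (fun f : ℕ => if (l : ℕ) + f < d + 1 then L ^ f * ((((l : ℕ) + f).choose l : ℕ) : ℂ) * W (l + f) else 0) f := by
      intro f
      by_cases h : (l : ℕ) + f < d + 1
      · simp only [h, dif_pos, if_pos, hW]
      · simp only [h, dif_neg, if_neg, not_false_eq_true]
    rw [Finset.sum_congr rfl fun f _ => h2 f, Fin.sum_univ_eq_sum_range (fun f : ℕ =>
      if (l : ℕ) + f < d + 1 then L ^ f * ((((l : ℕ) + f).choose l : ℕ) : ℂ) * W (l + f) else 0) (d + 1),
      ← Finset.sum_filter, ← Finset.sum_filter]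
    refine Finset.sum_bij' (fun f _ => (l : ℕ) + f) (fun i _ => i - (l : ℕ)) ?_ ?_ ?_ ?_ ?_
    · intro f hf
      rw [Finset.mem_filter, Finset.mem_range] at hf ⊢
      exact ⟨hf.2, Nat.le_add_right _ _⟩
    · intro i hi
      rw [Finset.mem_filter, Finset.mem_range] at hi ⊢
      omega
    · intro f hf
      simp
    · intro i hi
      rw [Finset.mem_filter, Finset.mem_range] at hi
      change (l : ℕ) + (i - (l : ℕ)) = i
      omega
    · intro f hf
      simp
  simp only [h1]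
  rw [Fin.sum_univ_eq_sum_range (fun l : ℕ => (∑ i ∈ Finset.range (d + 1),
      if l ≤ i then L ^ (i - l) * ((i.choose l : ℕ) : ℂ) * W i else 0) * y ^ l) (d + 1)]
  have h3 : ∑ i : Fin (d + 1), w i * (L + y) ^ (i : ℕ) = ∑ i ∈ Finset.range (d + 1), W i * (L + y) ^ i := by
    rw [← Fin.sum_univ_eq_sum_range (fun i : ℕ => W i * (L + y) ^ i) (d + 1)]
    refine Finset.sum_congr rfl fun i _ => ?_
    simp only [hW, dif_pos i.isLt]
  rw [h3]
  simp only [Finset.sum_mul]
  rw [Finset.sum_comm]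
  refine Finset.sum_congr rfl fun i hi => ?_
  rw [add_comm L y, add_pow, Finset.mul_sum]
  have h4 : Finset.range (i + 1) ⊆ Finset.range (d + 1) := by
    intro j hj
    rw [Finset.mem_range] at hi hj ⊢
    omega
  rw [← Finset.sum_subset h4]
  · refine Finset.sum_congr rfl fun l hl => ?_
    rw [Finset.mem_range] at hl
    rw [if_pos (by omega)]
    ring
  · intro l _ hl
    rw [Finset.mem_range] at hl
    rw [if_neg (by omega), zero_mul]

theorem tc_inv {d : ℕ} (L : ℂ) (w : Fin (d + 1) → ℂ) : tc (-L) (tc L w) = w := by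
  classical
  have h1 : ∀ y : ℂ, ∑ l, tc (-L) (tc L w) l * y ^ (l : ℕ) = ∑ l, w l * y ^ (l : ℕ) := by
    intro y
    rw [tc_sum, tc_sum]
    refine Finset.sum_congr rfl fun i _ => ?_
    congr 2
    ring
  set p : Polynomial ℂ := ∑ l : Fin (d + 1), Polynomial.C (tc (-L) (tc L w) l) * Polynomial.X ^ (l : ℕ) with hp
  set q : Polynomial ℂ := ∑ l : Fin (d + 1), Polynomial.C (w l) * Polynomial.X ^ (l : ℕ) with hq
  have h2 : p = q := by
    apply Polynomial.funext
    intro y
    rw [hp, hq]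
    simp only [Polynomial.eval_finsetSum, Polynomial.eval_mul, Polynomial.eval_C, Polynomial.eval_pow,
      Polynomial.eval_X]
    exact h1 y
  have h3 : ∀ (u : Fin (d + 1) → ℂ) (l : Fin (d + 1)),
      (∑ l' : Fin (d + 1), Polynomial.C (u l') * Polynomial.X ^ (l' : ℕ)).coeff (l : ℕ) = u l := by
    intro u l
    rw [Polynomial.finsetSum_coeff, Finset.sum_eq_single l]
    · simp
    · intro l' _ hne
      rw [Polynomial.coeff_C_mul, Polynomial.coeff_X_pow, if_neg, mul_zero]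
      exact fun h => hne (Fin.ext h.symm)
    · simp
  funext l
  have h4 := congrArg (fun r : Polynomial ℂ => r.coeff (l : ℕ)) h2
  simp only [hp, hq] at h4
  rwa [h3, h3] at h4

theorem tc_norm {d : ℕ} (L : ℂ) (w : Fin (d + 1) → ℂ) (l : Fin (d + 1)) (m : ℝ) (hm : ∀ i, ‖w i‖ ≤ m) :
    ‖tc L w l‖ ≤ (d + 1) * (2 ^ (2 * d) * (max 1 ‖L‖) ^ d) * m := by
  classical
  have hm0 : 0 ≤ m := (norm_nonneg _).trans (hm 0)
  have h1 : (1 : ℝ) ≤ max 1 ‖L‖ := le_max_left _ _
  rw [tc]
  refine (norm_sum_le _ _).trans ?_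
  calc ∑ f : Fin (d + 1), ‖(if h : (l : ℕ) + f < d + 1 then
        L ^ (f : ℕ) * ((((l : ℕ) + f).choose l : ℕ) : ℂ) * w ⟨(l : ℕ) + f, h⟩ else 0)‖
      ≤ ∑ f : Fin (d + 1), (2 ^ (2 * d) * (max 1 ‖L‖) ^ d) * m := by
        refine Finset.sum_le_sum fun f _ => ?_
        split_ifs with h
        · rw [norm_mul, norm_mul, norm_pow, Complex.norm_natCast]
          have h2 : ‖L‖ ^ (f : ℕ) ≤ (max 1 ‖L‖) ^ d :=
            (pow_le_pow_left₀ (norm_nonneg _) (le_max_right _ _) _).trans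
              (pow_le_pow_right₀ h1 (Nat.lt_succ_iff.1 f.isLt))
          have h3 : ((((l : ℕ) + f).choose l : ℕ) : ℝ) ≤ 2 ^ (2 * d) := by
            have h4 : ((l : ℕ) + f).choose l ≤ 2 ^ ((l : ℕ) + f) := Nat.choose_le_two_pow _ _
            have h5 : 2 ^ ((l : ℕ) + f) ≤ 2 ^ (2 * d) := Nat.pow_le_pow_right (by norm_num) (by omega)
            exact_mod_cast h4.trans h5
          calc ‖L‖ ^ (f : ℕ) * ((((l : ℕ) + f).choose l : ℕ) : ℝ) * ‖w ⟨(l : ℕ) + f, h⟩‖
              ≤ (max 1 ‖L‖) ^ d * 2 ^ (2 * d) * m :=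
                mul_le_mul (mul_le_mul h2 h3 (by positivity) (by positivity)) (hm _) (norm_nonneg _) (by positivity)
            _ = (2 ^ (2 * d) * (max 1 ‖L‖) ^ d) * m := by ring
        · rw [norm_zero]
          positivity
    _ = (d + 1) * (2 ^ (2 * d) * (max 1 ‖L‖) ^ d) * m := by
        rw [Finset.sum_const, Finset.card_univ, Fintype.card_fin, nsmul_eq_mul]
        push_cast
        ring

end shift

/-- the integers up to `T` -/
noncomputable def IT (T : ℝ) : Finset ℕ := Finset.Icc 1 ⌊T⌋₊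

/-- `log t` satisfies the independence condition -/
theorem AInd_log : AInd (fun (_ : Unit) (t : ℝ) => Real.log t) 1 2 := by
  classical
  intro d p hp
  have h1 := log_indep d 1 2 one_pos (by norm_num) (fun l => p (fun _ => l)) (by
    intro t ht
    have h2 := hp t ht
    rw [← h2]
    refine Fintype.sum_equiv (Equiv.funUnique Unit (Fin (d + 1))).symm _ _ fun l => ?_
    have h5 : (Equiv.funUnique Unit (Fin (d + 1))).symm l = fun _ => l := by
      funext u
      rfl
    rw [h5]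
    simp)
  funext l
  have h3 := congrFun h1 (l ())
  have h4 : (fun _ : Unit => l ()) = l := funext fun u => rfl
  rw [← h4]
  exact h3

end Pool.Agent.Y890.UC
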