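import Pool.Agent.Y890.UC.Inst

/-!
# Logarithms of integers
-/

set_option autoImplicit false
set_option linter.unusedSectionVars false

open Set Filter Topology Finset

namespace Pool.Agent.Y890.UC

open Pool.Agent.TH818.AR Pool.Agent.TH818.AP Pool.Agent.Y120

theorem log_bound (d : ℕ) : ∃ T3 : ℝ, ∀ T : ℝ, T3 ≤ T →
    ((d : ℝ) + 1) * (2 ^ (2 * d) * (max 1 (Real.log T)) ^ d) ≤ T := by
  have h1 := (Real.isLittleO_pow_log_id_atTop (n := d))
  have h2 := h1.def (c := (((d : ℝ) + 1) * 2 ^ (2 * d))⁻¹) (by positivity)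
  obtain ⟨T3, hT3⟩ := (h2.and (eventually_ge_atTop (Real.exp 1))).exists_forall_of_atTop
  refine ⟨T3, fun T hT => ?_⟩
  obtain ⟨h3, h4⟩ := hT3 T hT
  have h5 : 1 ≤ Real.log T := by
    rw [Real.le_log_iff_exp_le (lt_of_lt_of_le (Real.exp_pos _) h4)]
    exact h4
  have hT0 : 0 < T := lt_of_lt_of_le (Real.exp_pos _) h4
  rw [max_eq_right h5]
  simp only [id_eq, norm_pow, Real.norm_eq_abs, abs_of_pos hT0, abs_of_nonneg (zero_le_one.trans h5)] at h3
  rw [inv_mul_eq_div, le_div_iff₀ (by positivity)] at h3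
  linarith

theorem oneVar_log : OneVar (fun T => IT T) (fun (x : ℕ) (_ : Unit) => ((Real.log x : ℝ) : ℂ)) := by
  classical
  intro h _ _ d A ε hε
  have hrat := oneVar_rat (fun (_ : Unit) (t : ℝ) => Real.log t) 1 2 (by norm_num)
    (fun _ t ht => analyticAt_log (by linarith [ht.1])) AInd_log
  obtain ⟨B₁, C₁, T₂, hC₁, hT₂, hu⟩ := hrat (h × Fin (d + 1)) d (A + 1) (ε / 2) (by positivity)
  obtain ⟨T₃, hT₃⟩ := log_bound d
  refine ⟨B₁ + 1, C₁ * (4 / ε * 2 + 1), max T₂ (max T₃ (2 ^ (2 * d))), by positivity, le_max_of_le_left hT₂, ?_⟩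
  intro T hT ξ Y hY hrel
  have hTT₂ : T₂ ≤ T := (le_max_left _ _).trans hT
  have hTT₃ : T₃ ≤ T := (le_max_left _ _).trans ((le_max_right _ _).trans hT)
  have hTd : (2 : ℝ) ^ (2 * d) ≤ T := (le_max_right _ _).trans ((le_max_right _ _).trans hT)
  have hT2 : 2 ≤ T := hT₂.trans hTT₂
  have hT1 : 1 ≤ T := by linarith
  have hTp : 0 < T := by linarith
  have hYmem : ∀ x ∈ Y, 1 ≤ x ∧ (x : ℝ) ≤ T := by
    intro x hx
    have h1 := Finset.mem_Icc.1 (hY hx)
    exact ⟨h1.1, (Nat.le_floor_iff hTp.le).1 h1.2⟩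
  -- dyadic pieces
  set Kn : ℕ := Nat.log 2 ⌊T⌋₊ + 1 with hKn
  have hpiece : ∀ k : ℕ, (((Y.filter fun x => Nat.log 2 x = k).card : ℕ) : ℝ) ≤ C₁ * T ^ (ε / 2) := by
    intro k
    set Yk := Y.filter fun x => Nat.log 2 x = k with hYk
    have hk : ∀ x ∈ Yk, 2 ^ k ≤ x ∧ x < 2 ^ (k + 1) ∧ x ∈ Y := by
      intro x hx
      obtain ⟨h1, h2⟩ := Finset.mem_filter.1 hx
      have h3 := (hYmem x h1).1
      refine ⟨?_, ?_, h1⟩
      · rw [← h2]
        exact Nat.pow_log_le_self 2 (by omega)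
      · rw [← h2]
        exact Nat.lt_pow_succ_log_self (by norm_num) x
    have h2k : (0 : ℝ) < (2 : ℝ) ^ k := by positivity
    have h2kq : ((2 : ℚ) ^ k) ≠ 0 := by positivity
    have hinj : (Yk.image fun x : ℕ => (x : ℚ) / 2 ^ k).card = Yk.card := by
      refine Finset.card_image_of_injective _ ?_
      intro x y hxy
      have hxy' : (x : ℚ) / 2 ^ k = (y : ℚ) / 2 ^ k := hxy
      rw [div_left_inj' h2kq] at hxy'
      exact_mod_cast hxy'
    rw [← hinj]
    set L : ℂ := (((k : ℝ) * Real.log 2 : ℝ) : ℂ) with hL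
    refine hu T hTT₂ (fun p => ξ p.1 * L ^ (p.2 : ℕ)) _ ?_ ?_
    · intro q hq
      obtain ⟨x, hx, rfl⟩ := Finset.mem_image.1 hq
      obtain ⟨hx1, hx2, hxY⟩ := hk x hx
      have hxT := (hYmem x hxY).2
      have hx1' : (2 : ℝ) ^ k ≤ x := by exact_mod_cast hx1
      have hx2' : (x : ℝ) < 2 ^ (k + 1) := by exact_mod_cast hx2
      rw [mem_RT]
      refine ⟨⟨?_, ?_⟩, ?_⟩
      · push_cast
        rw [le_div_iff₀ h2k]
        linarith
      · push_cast
        rw [div_le_iff₀ h2k]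
        rw [pow_succ] at hx2'
        linarith
      · have h3 : ((x : ℚ) / 2 ^ k).den ∣ 2 ^ k := by
          have h4 : ((x : ℚ) / 2 ^ k) = ((x : ℤ) : ℚ) / ((2 ^ k : ℕ) : ℤ) := by push_cast; rfl
          rw [h4]
          have := Rat.den_dvd (x : ℤ) ((2 ^ k : ℕ) : ℤ)
          exact_mod_cast this
        have h4 := Nat.le_of_dvd (by positivity) h3
        have h5 : (((x : ℚ) / 2 ^ k).den : ℝ) ≤ ((2 ^ k : ℕ) : ℝ) := by exact_mod_cast h4
        push_cast at h5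
        linarith
    · intro q hq
      obtain ⟨x, hx, rfl⟩ := Finset.mem_image.1 hq
      obtain ⟨hx1, hx2, hxY⟩ := hk x hx
      have hxT := (hYmem x hxY).2
      have hx1' : (2 : ℝ) ^ k ≤ x := by exact_mod_cast hx1
      have hx0 : (0 : ℝ) < x := lt_of_lt_of_le h2k hx1'
      obtain ⟨c, hc, l₀, hl₀, hs⟩ := hrel x hxY
      set w : Fin (d + 1) → ℂ := fun i => ∑ s, ξ s * (c (fun _ => i) s : ℂ) with hw
      have hwu : ∀ l : Unit → Fin (d + 1), ∑ s, ξ s * (c l s : ℂ) = w (l ()) := fun l => rfl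
      set c' : (Unit → Fin (d + 1)) → h × Fin (d + 1) → ℤ := fun l p =>
        if hh : (l () : ℕ) + p.2 < d + 1 then ((((l () : ℕ) + p.2).choose (l ()) : ℕ) : ℤ) *
          c (fun _ => ⟨(l () : ℕ) + p.2, hh⟩) p.1 else 0 with hc'
      have hsum : ∀ l : Unit → Fin (d + 1), ∑ p : h × Fin (d + 1), (ξ p.1 * L ^ (p.2 : ℕ)) * (c' l p : ℂ) =
          tc L w (l ()) := by
        intro l
        rw [Fintype.sum_prod_type_right, tc]
        refine Finset.sum_congr rfl fun f _ => ?_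
        by_cases hh : (l () : ℕ) + f < d + 1
        · rw [dif_pos hh, hw]
          simp only [hc', dif_pos hh]
          rw [Finset.mul_sum]
          refine Finset.sum_congr rfl fun s _ => ?_
          push_cast
          ring
        · rw [dif_neg hh]
          simp only [hc', dif_neg hh]
          simp
      obtain ⟨l₁, hl₁⟩ := Finite.exists_max fun l : Fin (d + 1) => ‖tc L w l‖
      have hLn : ‖L‖ ≤ Real.log T := by
        rw [hL, Complex.norm_real, Real.norm_eq_abs, abs_of_nonneg (by positivity), ← Real.log_pow]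
        exact Real.log_le_log h2k (by linarith)
      have hbound : ‖w (l₀ ())‖ ≤ T * ‖tc L w l₁‖ := by
        have h3 := tc_norm (-L) (tc L w) (l₀ ()) _ hl₁
        rw [tc_inv, norm_neg] at h3
        refine h3.trans (mul_le_mul_of_nonneg_right ?_ (norm_nonneg _))
        refine le_trans ?_ (hT₃ T hTT₃)
        have h4 : max 1 ‖L‖ ≤ max 1 (Real.log T) := max_le_max le_rfl hLn
        have h5 : (0 : ℝ) ≤ max 1 ‖L‖ := le_max_of_le_left zero_le_one
        gcongr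
      have hw0 : 0 < ‖w (l₀ ())‖ := norm_pos_iff.2 hl₀
      have hl₁0 : 0 < ‖tc L w l₁‖ := by
        by_contra hcon
        have h3 : ‖tc L w l₁‖ = 0 := le_antisymm (not_lt.1 hcon) (norm_nonneg _)
        rw [h3, mul_zero] at hbound
        linarith
      refine ⟨c', ?_, fun _ => l₁, ?_, ?_⟩
      · intro l p
        have hTA : (0 : ℝ) < T ^ A := Real.rpow_pos_of_pos hTp _
        have hTA1 : T ^ (A + 1) = T * T ^ A := by
          rw [Real.rpow_add hTp, Real.rpow_one, mul_comm]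
        simp only [hc']
        by_cases hh : (l () : ℕ) + p.2 < d + 1
        · rw [dif_pos hh]
          push_cast
          rw [abs_mul, Nat.abs_cast, hTA1]
          refine mul_le_mul ?_ (hc _ _) (abs_nonneg _) hTp.le
          refine le_trans ?_ hTd
          have h4 : ((l () : ℕ) + p.2).choose (l ()) ≤ 2 ^ ((l () : ℕ) + p.2) := Nat.choose_le_two_pow _ _
          have h5 : 2 ^ ((l () : ℕ) + p.2) ≤ 2 ^ (2 * d) := Nat.pow_le_pow_right (by norm_num) (by omega)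
          exact_mod_cast h4.trans h5
        · rw [dif_neg hh]
          simp only [Int.cast_zero, abs_zero]
          exact (Real.rpow_pos_of_pos hTp _).le
      · have h3 := hsum (fun _ => l₁)
        change ∑ p : h × Fin (d + 1), (ξ p.1 * L ^ (p.2 : ℕ)) * (c' (fun _ => l₁) p : ℂ) ≠ 0
        rw [h3]
        exact norm_pos_iff.1 hl₁0
      · change ‖∑ l : Unit → Fin (d + 1), (∑ p : h × Fin (d + 1), (ξ p.1 * L ^ (p.2 : ℕ)) * (c' l p : ℂ)) *
            ∏ i, (((Real.log (((x : ℚ) / 2 ^ k : ℚ) : ℝ) : ℝ) : ℂ)) ^ (l i : ℕ)‖ ≤ T ^ (-B₁) *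
            ‖∑ p : h × Fin (d + 1), (ξ p.1 * L ^ (p.2 : ℕ)) * (c' (fun _ => l₁) p : ℂ)‖
        rw [hsum (fun _ => l₁)]
        have h3 : ∑ l : Unit → Fin (d + 1), (∑ p : h × Fin (d + 1), (ξ p.1 * L ^ (p.2 : ℕ)) * (c' l p : ℂ)) *
            ∏ i, (((Real.log (((x : ℚ) / 2 ^ k : ℚ) : ℝ) : ℝ) : ℂ)) ^ (l i : ℕ) =
            ∑ l : Unit → Fin (d + 1), (∑ s, ξ s * (c l s : ℂ)) * ∏ i, (((Real.log (x : ℝ) : ℝ) : ℂ)) ^ (l i : ℕ) := by
          have h4 : ∀ (G : Fin (d + 1) → ℂ), ∑ l : Unit → Fin (d + 1), G (l ()) = ∑ i : Fin (d + 1), G i := by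
            intro G
            exact Fintype.sum_equiv (Equiv.funUnique Unit (Fin (d + 1))) _ _ fun l => rfl
          simp only [hsum, hwu, Finset.univ_unique, Finset.prod_singleton]
          have h5 : (default : Unit) = () := rfl
          rw [h5, h4 (fun i => tc L w i * (((Real.log (((x : ℚ) / 2 ^ k : ℚ) : ℝ) : ℝ) : ℂ)) ^ (i : ℕ)),
            h4 (fun i => w i * (((Real.log (x : ℝ) : ℝ) : ℂ)) ^ (i : ℕ)), tc_sum]
          refine Finset.sum_congr rfl fun i _ => ?_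
          congr 2
          rw [hL, ← Complex.ofReal_add]
          congr 1
          push_cast
          rw [Real.log_div hx0.ne' h2k.ne', Real.log_pow]
          ring
        rw [h3]
        refine hs.trans ?_
        have h4 : T ^ (-(B₁ + 1)) * T = T ^ (-B₁) := by
          nth_rewrite 2 [← Real.rpow_one T]
          rw [← Real.rpow_add hTp]
          congr 1
          ring
        calc T ^ (-(B₁ + 1)) * ‖∑ s, ξ s * (c l₀ s : ℂ)‖ ≤ T ^ (-(B₁ + 1)) * (T * ‖tc L w l₁‖) :=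
              mul_le_mul_of_nonneg_left hbound (Real.rpow_pos_of_pos hTp _).le
          _ = T ^ (-B₁) * ‖tc L w l₁‖ := by rw [← mul_assoc, h4]
  -- summation
  have hmaps : ∀ x ∈ Y, Nat.log 2 x ∈ Finset.range Kn := by
    intro x hx
    rw [Finset.mem_range, hKn]
    have h1 := Finset.mem_Icc.1 (hY hx)
    have h2 : Nat.log 2 x ≤ Nat.log 2 ⌊T⌋₊ := Nat.log_mono_right h1.2
    omega
  have hcount := Finset.card_eq_sum_card_fiberwise (f := fun x => Nat.log 2 x) (s := Y) (t := Finset.range Kn)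
    (fun x hx => hmaps x (Finset.mem_coe.1 hx))
  have hKle : (Kn : ℝ) ≤ (4 / ε * 2 + 1) * T ^ (ε / 2) := by
    have h1 : (2 : ℝ) ^ (Nat.log 2 ⌊T⌋₊) ≤ T := by
      have h2 : 2 ^ (Nat.log 2 ⌊T⌋₊) ≤ ⌊T⌋₊ := Nat.pow_log_le_self 2 (by
        have : 1 ≤ ⌊T⌋₊ := (Nat.one_le_floor_iff T).2 hT1
        omega)
      have h3 : ((2 ^ (Nat.log 2 ⌊T⌋₊) : ℕ) : ℝ) ≤ (⌊T⌋₊ : ℝ) := by exact_mod_cast h2
      push_cast at h3
      exact h3.trans (Nat.floor_le hTp.le)
    have h2 : (Nat.log 2 ⌊T⌋₊ : ℝ) * Real.log 2 ≤ Real.log T := by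
      rw [← Real.log_pow]
      exact Real.log_le_log (by positivity) h1
    have h3 : Real.log T ≤ T ^ (ε / 2) / (ε / 2) := Real.log_le_rpow_div hTp.le (by positivity)
    have h4 : (1 : ℝ) / 2 < Real.log 2 := by
      have := Real.log_two_gt_d9
      linarith
    have h5 : (0 : ℝ) ≤ (Nat.log 2 ⌊T⌋₊ : ℝ) := Nat.cast_nonneg _
    have h6 : 1 ≤ T ^ (ε / 2) := Real.one_le_rpow hT1 (by positivity)
    have h7 : (Nat.log 2 ⌊T⌋₊ : ℝ) ≤ 2 * (T ^ (ε / 2) / (ε / 2)) := by nlinarith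
    rw [hKn]
    push_cast
    calc (Nat.log 2 ⌊T⌋₊ : ℝ) + 1 ≤ 2 * (T ^ (ε / 2) / (ε / 2)) + T ^ (ε / 2) := add_le_add h7 h6
      _ = (4 / ε + 1) * T ^ (ε / 2) := by field_simp; ring
      _ ≤ (4 / ε * 2 + 1) * T ^ (ε / 2) := by
          refine mul_le_mul_of_nonneg_right ?_ (by linarith)
          have : 0 < 4 / ε := by positivity
          linarith
  have hTε : T ^ (ε / 2) * T ^ (ε / 2) = T ^ ε := by
    rw [← Real.rpow_add hTp]
    congr 1
    ring
  rw [hcount]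
  push_cast
  calc ∑ k ∈ Finset.range Kn, (((Y.filter fun x => Nat.log 2 x = k).card : ℕ) : ℝ)
      ≤ ∑ k ∈ Finset.range Kn, C₁ * T ^ (ε / 2) := Finset.sum_le_sum fun k _ => hpiece k
    _ = Kn * (C₁ * T ^ (ε / 2)) := by rw [Finset.sum_const, Finset.card_range, nsmul_eq_mul]
    _ ≤ ((4 / ε * 2 + 1) * T ^ (ε / 2)) * (C₁ * T ^ (ε / 2)) :=
        mul_le_mul_of_nonneg_right hKle (by positivity)
    _ = C₁ * (4 / ε * 2 + 1) * (T ^ (ε / 2) * T ^ (ε / 2)) := by ring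
    _ = C₁ * (4 / ε * 2 + 1) * T ^ ε := by rw [hTε]

end Pool.Agent.Y890.UC
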